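import Pool.Agent.Q167.PR.K

/-!
# The largest least prime in progressions modulo `d` for every order of independence

In Cramér's random model every integer `n ≥ 3` belongs to the random set `A` with probability
`1 / log n`, and the events `n ∈ A` are independent. In the model with independence of order `κ`
only those sets `T` of events have to be independent whose number of elements is at most `κ n` for
all `n ∈ T`. Let `p(d)` be the largest, over `1 ≤ a < d` with `gcd(a, d) = 1`, of the least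
elements of `A` in the progressions `a, a + d, a + 2 d, ...`.

(1) For nondecreasing `κ`: `p(d) < d ^ (1 + ε)` (every `ε > 0`, `d` large) in every model of order
    `κ`, if and only if `κ` is unbounded; `p(d) < d (log d) ^ B` (some `B`, `d` large) in every
    model, if and only if `κ n ≥ c log n / log log n` for some `c > 0`; `p(d) < C d (log d) ^ 2`
    (some `C`, `d` large) in every model, if and only if `κ n ≥ c log n` for some `c > 0`.
(2) Bounds for a fixed order `k`, (3) for `κ n ∼ c log n / log log n`, (4) for `κ n ∼ α log n`. The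
    bounds along sparse sequences of moduli are best possible.
-/

set_option autoImplicit false

namespace Pool.Agent.Results.MP_458f0b_nt.OrdersOfIndependence

open MeasureTheory Filter Topology

/-- Cramér's model with independence of order `κ`: `E n` is the event that the integer `n` belongs
to the random set. For every finite set `T` of integers `n ≥ 3` with at most `κ n` elements for
all `n ∈ T`, the probability that `T` is contained in the random set is `∏ 1 / log n`. -/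
structure CramerModel {Ω : Type} [MeasurableSpace Ω] (P : Measure Ω) (κ : ℕ → ℕ)
    (E : ℕ → Set Ω) : Prop where
  meas : ∀ n, MeasurableSet (E n)
  indep : ∀ T : Finset ℕ, (∀ n ∈ T, 3 ≤ n ∧ T.card ≤ κ n) →
    P (⋂ n ∈ T, E n) = ENNReal.ofReal (∏ n ∈ T, 1 / Real.log n)

/-- In every model of order `κ` the random set `{n | ω ∈ E n}` has the property `Q` almost
surely. -/
def InEveryModel (κ : ℕ → ℕ) (Q : Set ℕ → Prop) : Prop :=
  ∀ (Ω : Type) [MeasurableSpace Ω] (P : Measure Ω) [IsProbabilityMeasure P] (E : ℕ → Set Ω),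
    CramerModel P κ E → ∀ᵐ ω ∂P, Q {n | ω ∈ E n}

/-- In some model of order `κ` the random set `{n | ω ∈ E n}` has the property `Q` almost
surely. -/
def InSomeModel (κ : ℕ → ℕ) (Q : Set ℕ → Prop) : Prop :=
  ∃ (Ω : Type) (_ : MeasurableSpace Ω) (P : Measure Ω) (_ : IsProbabilityMeasure P)
    (E : ℕ → Set Ω), CramerModel P κ E ∧ ∀ᵐ ω ∂P, Q {n | ω ∈ E n}

/-- `p(d) < t`: every progression `a, a + d, a + 2 d, ...` with `1 ≤ a < d` and `gcd(a, d) = 1`
contains an element of `A` below `t`. -/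
def LeastBelow (A : Set ℕ) (d : ℕ) (t : ℝ) : Prop :=
  ∀ a : ℕ, 1 ≤ a → a < d → Nat.Coprime a d →
    ∃ j : ℕ, a + j * d ∈ A ∧ ((a + j * d : ℕ) : ℝ) < t

/-- The series of the `d ^ (-η)`, `d ∈ D`, converges for every `η > 0`. -/
def Sparse (D : Set ℕ) : Prop :=
  ∀ η : ℝ, 0 < η → Summable fun d : ℕ => D.indicator (fun d => (d : ℝ) ^ (-η)) d

/-- `κ n ≥ (c - o(1)) g n` -/
def AtLeast (κ : ℕ → ℕ) (c : ℝ) (g : ℕ → ℝ) : Prop :=
  ∀ c' : ℝ, c' < c → ∀ᶠ n : ℕ in atTop, c' * g n ≤ κ n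

/-- `κ n ≤ (c + o(1)) g n` -/
def AtMost (κ : ℕ → ℕ) (c : ℝ) (g : ℕ → ℝ) : Prop :=
  ∀ c' : ℝ, c < c' → ∀ᶠ n : ℕ in atTop, (κ n : ℝ) ≤ c' * g n

/-- The function `Λ(α) = (α / 2) exp (2 / α - 1)` for `α < 2`, `Λ(α) = 1` for `α ≥ 2`. -/
noncomputable def Lambda (α : ℝ) : ℝ := if α < 2 then α / 2 * Real.exp (2 / α - 1) else 1

lemma some_of {κ : ℕ → ℕ} {Q : Set ℕ → Prop}
    (h : ∃ (Ω : Type) (_ : MeasurableSpace Ω) (P : Measure Ω) (_ : IsProbabilityMeasure P)
      (E : ℕ → Set Ω), (∀ n, MeasurableSet (E n)) ∧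
      (∀ T : Finset ℕ, (∀ n ∈ T, 3 ≤ n ∧ T.card ≤ κ n) →
        P (⋂ n ∈ T, E n) = ENNReal.ofReal (∏ n ∈ T, 1 / Real.log n)) ∧
      ∀ᵐ ω ∂P, Q {n | ω ∈ E n}) : InSomeModel κ Q := by
  obtain ⟨Ω, mΩ, P, hP, E, hE, hT, hae⟩ := h
  exact ⟨Ω, mΩ, P, hP, E, ⟨hE, hT⟩, hae⟩

/-- least elements of residue classes for every order of independence -/
theorem result :
    (∀ κ : ℕ → ℕ, Monotone κ →
      ((InEveryModel κ fun A => ∀ ε : ℝ, 0 < ε →
        ∀ᶠ d : ℕ in atTop, LeastBelow A d ((d : ℝ) ^ (1 + ε))) ↔ ∀ K : ℕ, ∃ n : ℕ, K < κ n) ∧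
      ((InEveryModel κ fun A => ∃ B : ℝ,
        ∀ᶠ d : ℕ in atTop, LeastBelow A d (d * Real.log d ^ B)) ↔
          ∃ c : ℝ, 0 < c ∧ ∀ᶠ n : ℕ in atTop, c * (Real.log n / Real.log (Real.log n)) ≤ κ n) ∧
      ((InEveryModel κ fun A => ∃ C : ℝ,
        ∀ᶠ d : ℕ in atTop, LeastBelow A d (C * (d * Real.log d ^ 2))) ↔
          ∃ c : ℝ, 0 < c ∧ ∀ᶠ n : ℕ in atTop, c * Real.log n ≤ κ n)) ∧
    (∀ k m : ℕ, 2 ≤ k → m = k / 2 →
      (InEveryModel (fun _ => k) fun A => ∀ ε : ℝ, 0 < ε →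
        ∀ᶠ d : ℕ in atTop, LeastBelow A d ((d : ℝ) ^ (1 + 2 / (m : ℝ) + ε))) ∧
      (∀ D : Set ℕ, Sparse D → InEveryModel (fun _ => k) fun A => ∀ ε : ℝ, 0 < ε →
        ∀ᶠ d : ℕ in atTop, d ∈ D → LeastBelow A d ((d : ℝ) ^ (1 + 1 / (m : ℝ) + ε))) ∧
      (∀ D : Set ℕ, D.Infinite → InSomeModel (fun _ => k) fun A =>
        ∃ᶠ d : ℕ in atTop, d ∈ D ∧ ¬ LeastBelow A d ((d : ℝ) ^ (1 + 1 / (m : ℝ)) / 2400))) ∧
    (∀ (κ : ℕ → ℕ) (c : ℝ), 0 < c →
      (AtLeast κ c (fun n => Real.log n / Real.log (Real.log n)) →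
        (InEveryModel κ fun A => ∀ ε : ℝ, 0 < ε →
          ∀ᶠ d : ℕ in atTop, LeastBelow A d (d * Real.log d ^ (2 + 4 / c + ε))) ∧
        (∀ D : Set ℕ, Sparse D → InEveryModel κ fun A => ∀ ε : ℝ, 0 < ε →
          ∀ᶠ d : ℕ in atTop, d ∈ D → LeastBelow A d (d * Real.log d ^ (2 + 2 / c + ε)))) ∧
      (AtMost κ c (fun n => Real.log n / Real.log (Real.log n)) →
        ∀ D : Set ℕ, D.Infinite → InSomeModel κ fun A => ∀ ε : ℝ, 0 < ε →
          ∃ᶠ d : ℕ in atTop, d ∈ D ∧ ¬ LeastBelow A d (d * Real.log d ^ (2 + 2 / c - ε)))) ∧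
    (∀ (κ : ℕ → ℕ) (α : ℝ), 0 < α →
      (AtLeast κ α (fun n => Real.log n) →
        (InEveryModel κ fun A => ∀ ε : ℝ, 0 < ε →
          ∀ᶠ d : ℕ in atTop, LeastBelow A d ((2 * Lambda (α / 2) + ε) * (d * Real.log d ^ 2))) ∧
        (∀ D : Set ℕ, Sparse D → InEveryModel κ fun A => ∀ ε : ℝ, 0 < ε →
          ∀ᶠ d : ℕ in atTop, d ∈ D → LeastBelow A d ((Lambda α + ε) * (d * Real.log d ^ 2)))) ∧
      (AtMost κ α (fun n => Real.log n) →
        ∀ D : Set ℕ, D.Infinite → InSomeModel κ fun A => ∀ ε : ℝ, 0 < ε →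
          ∃ᶠ d : ℕ in atTop, d ∈ D ∧ ¬ LeastBelow A d ((Lambda α - ε) * (d * Real.log d ^ 2)))) := by
  refine ⟨fun κ hmono => ⟨⟨fun h => ?_, fun h => ?_⟩, ⟨fun h => ?_, fun h => ?_⟩,
    ⟨fun h => ?_, fun h => ?_⟩⟩, fun k m hk hm => ⟨?_, ?_, ?_⟩,
    fun κ c hc => ⟨fun h => ⟨?_, ?_⟩, fun h => ?_⟩, fun κ α hα => ⟨fun h => ⟨?_, ?_⟩, fun h => ?_⟩⟩
  · by_contra hcon
    simp only [not_forall, not_exists, not_lt] at hcon
    obtain ⟨K, hK⟩ := hcon
    obtain ⟨Ω, mΩ, P, hP, E, hE, hT, hae⟩ := Q167.PR.fixed_lower (κ := κ) (m := K + 1) (by omega)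
      (fun n => by have := hK n; omega) Set.infinite_univ
    have hε : (0:ℝ) < 1 / (2 * ((K : ℝ) + 1)) := by positivity
    have h1 := h Ω P E ⟨hE, hT⟩
    obtain ⟨ω, h2, h3⟩ := (hae.and h1).exists
    have hlim : Tendsto (fun d : ℕ => (d : ℝ) ^ (1 / (2 * ((K : ℝ) + 1)))) atTop atTop :=
      (tendsto_rpow_atTop hε).comp tendsto_natCast_atTop_atTop
    obtain ⟨d, ⟨_, h4⟩, h5, h6, h7⟩ := (h2.and_eventually ((h3 _ hε).and
      ((hlim.eventually_ge_atTop 2400).and (eventually_ge_atTop 1)))).exists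
    apply h4
    apply Q167.PR.Below.mono (A := {n | ω ∈ E n}) h5
    have hd0 : (0:ℝ) < d := by exact_mod_cast h7
    rw [le_div_iff₀ (by norm_num)]
    have h8 : (1 : ℝ) + 1 / ((K + 1 : ℕ) : ℝ) =
        (1 + 1 / (2 * ((K : ℝ) + 1))) + 1 / (2 * ((K : ℝ) + 1)) := by
      push_cast
      field_simp
      ring
    rw [h8, Real.rpow_add hd0 (1 + 1 / (2 * ((K : ℝ) + 1)))]
    exact mul_le_mul_of_nonneg_left h6 (by positivity)
  · intro Ω _ P _ E hM
    have h1 : ∀ᵐ ω ∂P, ∀ m : ℕ, ∀ᶠ d : ℕ in atTop, Q167.PR.Below {n | ω ∈ E n} d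
        ((d : ℝ) ^ (1 + 2 / ((m + 1 : ℕ) : ℝ) + 1 / ((m : ℝ) + 1))) := by
      rw [ae_all_iff]
      intro m
      obtain ⟨n₀, hn₀⟩ := h (2 * (m + 1))
      refine Q167.PR.fixed_all P hM.meas hM.indep (m := m + 1) (by omega) ?_ (by positivity)
      filter_upwards [eventually_ge_atTop n₀] with n hn
      have := hmono hn
      omega
    filter_upwards [h1] with ω hω
    intro ε hε
    obtain ⟨m, hm⟩ := exists_nat_one_div_lt (show (0:ℝ) < ε / 3 by positivity)
    filter_upwards [hω m, eventually_ge_atTop 1] with d hd hd1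
    apply Q167.PR.Below.mono (A := {n | ω ∈ E n}) hd
    apply Real.rpow_le_rpow_of_exponent_le (by exact_mod_cast hd1)
    have h2 : 2 / ((m + 1 : ℕ) : ℝ) + 1 / ((m : ℝ) + 1) = 3 * (1 / ((m : ℝ) + 1)) := by
      push_cast
      ring
    linarith
  · by_contra hcon
    have h1 : ∀ c : ℝ, 0 < c → ∃ᶠ n : ℕ in atTop, (κ n : ℝ) < c * Q167.PR.gg n := by
      intro c hc
      by_contra h2
      rw [not_frequently] at h2
      apply hcon
      refine ⟨c, hc, ?_⟩
      filter_upwards [h2] with n hn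
      exact not_lt.1 hn
    obtain ⟨Ω, mΩ, P, hP, E, hE, hT, hae⟩ := Q167.PR.poly_none hmono h1
    have h2 := h Ω P E ⟨hE, hT⟩
    obtain ⟨ω, h3, B, h4⟩ := (hae.and h2).exists
    obtain ⟨d, ⟨a, ha1, ha2, ha3, ha4⟩, h5⟩ := ((h3 B 1).and_eventually h4).exists
    obtain ⟨j, hj1, hj2⟩ := h5 a ha1 ha2 ha3
    have h6 := ha4 j hj1
    rw [one_mul] at h6
    linarith
  · obtain ⟨c, hc, hc2⟩ := h
    intro Ω _ P _ E hM
    have h1 := Q167.PR.poly_all P hM.meas hM.indep (c := c) (A := 3 + 4 / c) hc (by linarith) hc2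
    filter_upwards [h1] with ω hω
    exact ⟨_, hω⟩
  · by_contra hcon
    have h1 : ∀ c : ℝ, 0 < c → ∃ᶠ n : ℕ in atTop, (κ n : ℝ) < c * Real.log n := by
      intro c hc
      by_contra h2
      rw [not_frequently] at h2
      apply hcon
      refine ⟨c, hc, ?_⟩
      filter_upwards [h2] with n hn
      exact not_lt.1 hn
    obtain ⟨Ω, mΩ, P, hP, E, hE, hT, hae⟩ := Q167.PR.log_none hmono h1
    have h2 := h Ω P E ⟨hE, hT⟩
    obtain ⟨ω, h3, C, h4⟩ := (hae.and h2).exists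
    obtain ⟨d, h5, h6⟩ := ((h3 C).and_eventually h4).exists
    exact h5 h6
  · obtain ⟨c, hc, hc2⟩ := h
    intro Ω _ P _ E hM
    have h1 := Q167.PR.log_all P hM.meas hM.indep (α := c) (τ := 2 * Q167.LI.Lam (c / 2) + 1) hc
      (by linarith) (fun c' hc' => by
        filter_upwards [hc2, Q167.LI.tendsto_log_nat.eventually_ge_atTop 0] with n hn hn0
        exact (mul_le_mul_of_nonneg_right hc'.le hn0).trans hn)
    filter_upwards [h1] with ω hω
    exact ⟨_, hω⟩
  · intro Ω _ P _ E hM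
    have h1 : ∀ᵐ ω ∂P, ∀ c : ℕ, ∀ᶠ d : ℕ in atTop, Q167.PR.Below {n | ω ∈ E n} d
        ((d : ℝ) ^ (1 + 2 / (m : ℝ) + 1 / ((c : ℝ) + 1))) := by
      rw [ae_all_iff]
      intro c
      exact Q167.PR.fixed_all P hM.meas hM.indep (m := m) (by omega)
        (Eventually.of_forall fun n => by omega) (by positivity)
    filter_upwards [h1] with ω hω
    intro ε hε
    obtain ⟨c, hc⟩ := exists_nat_one_div_lt hε
    filter_upwards [hω c, eventually_ge_atTop 1] with d hd hd1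
    apply Q167.PR.Below.mono (A := {n | ω ∈ E n}) hd
    apply Real.rpow_le_rpow_of_exponent_le (by exact_mod_cast hd1)
    linarith
  · intro D hD Ω _ P _ E hM
    have h1 : ∀ᵐ ω ∂P, ∀ c : ℕ, ∀ᶠ d : ℕ in atTop, d ∈ D → Q167.PR.Below {n | ω ∈ E n} d
        ((d : ℝ) ^ (1 + 1 / (m : ℝ) + 1 / ((c : ℝ) + 1))) := by
      rw [ae_all_iff]
      intro c
      exact Q167.PR.fixed_sparse P hM.meas hM.indep (m := m) (by omega)
        (Eventually.of_forall fun n => by omega) hD (by positivity)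
    filter_upwards [h1] with ω hω
    intro ε hε
    obtain ⟨c, hc⟩ := exists_nat_one_div_lt hε
    filter_upwards [hω c, eventually_ge_atTop 1] with d hd hd1 hdD
    apply Q167.PR.Below.mono (A := {n | ω ∈ E n}) (hd hdD)
    apply Real.rpow_le_rpow_of_exponent_le (by exact_mod_cast hd1)
    linarith
  · intro D hD
    apply some_of
    exact Q167.PR.fixed_lower (κ := fun _ => k) (m := m) (by omega) (fun n => by omega) hD
  · intro Ω _ P _ E hM
    have h1 : ∀ᵐ ω ∂P, ∀ i : ℕ, ∀ᶠ d : ℕ in atTop, Q167.PR.Below {n | ω ∈ E n} d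
        ((d : ℝ) * Real.log d ^ (2 + 4 / c + 1 / ((i : ℝ) + 1))) := by
      rw [ae_all_iff]
      intro i
      have hi : (0:ℝ) < 1 / ((i : ℝ) + 1) := by positivity
      obtain ⟨c', hc', hc2', hc3'⟩ : ∃ c' : ℝ, 0 < c' ∧ c' < c ∧
          2 + 4 / c' < 2 + 4 / c + 1 / ((i : ℝ) + 1) := by
        refine ⟨c / (1 + c / (8 * ((i : ℝ) + 1))), by positivity, ?_, ?_⟩
        · rw [div_lt_iff₀ (by positivity)]
          have : 0 < c * (c / (8 * ((i : ℝ) + 1))) := by positivity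
          linarith
        · have h2 : 4 / (c / (1 + c / (8 * ((i : ℝ) + 1)))) =
              4 / c + 1 / 2 * (1 / ((i : ℝ) + 1)) := by
            field_simp
            ring
          rw [h2]
          linarith
      exact Q167.PR.poly_all P hM.meas hM.indep hc' hc3' (h c' hc2')
    filter_upwards [h1] with ω hω
    intro ε hε
    obtain ⟨i, hi⟩ := exists_nat_one_div_lt hε
    filter_upwards [hω i, Q167.LI.tendsto_log_nat.eventually_ge_atTop 1] with d hd hd1
    apply Q167.PR.Below.mono (A := {n | ω ∈ E n}) hd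
    apply mul_le_mul_of_nonneg_left _ (Nat.cast_nonneg _)
    exact Real.rpow_le_rpow_of_exponent_le hd1 (by linarith)
  · intro D hD Ω _ P _ E hM
    have h1 : ∀ᵐ ω ∂P, ∀ i : ℕ, ∀ᶠ d : ℕ in atTop, d ∈ D → Q167.PR.Below {n | ω ∈ E n} d
        ((d : ℝ) * Real.log d ^ (2 + 2 / c + 1 / ((i : ℝ) + 1))) := by
      rw [ae_all_iff]
      intro i
      have hi : (0:ℝ) < 1 / ((i : ℝ) + 1) := by positivity
      obtain ⟨c', hc', hc2', hc3'⟩ : ∃ c' : ℝ, 0 < c' ∧ c' < c ∧
          2 + 2 / c' < 2 + 2 / c + 1 / ((i : ℝ) + 1) := by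
        refine ⟨c / (1 + c / (4 * ((i : ℝ) + 1))), by positivity, ?_, ?_⟩
        · rw [div_lt_iff₀ (by positivity)]
          have : 0 < c * (c / (4 * ((i : ℝ) + 1))) := by positivity
          linarith
        · have h2 : 2 / (c / (1 + c / (4 * ((i : ℝ) + 1)))) =
              2 / c + 1 / 2 * (1 / ((i : ℝ) + 1)) := by
            field_simp
            ring
          rw [h2]
          linarith
      exact Q167.PR.poly_sparse P hM.meas hM.indep hc' hc3' (h c' hc2') hD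
    filter_upwards [h1] with ω hω
    intro ε hε
    obtain ⟨i, hi⟩ := exists_nat_one_div_lt hε
    filter_upwards [hω i, Q167.LI.tendsto_log_nat.eventually_ge_atTop 1] with d hd hd1 hdD
    apply Q167.PR.Below.mono (A := {n | ω ∈ E n}) (hd hdD)
    apply mul_le_mul_of_nonneg_left _ (Nat.cast_nonneg _)
    exact Real.rpow_le_rpow_of_exponent_le hd1 (by linarith)
  · intro D hD
    apply some_of
    exact Q167.PR.poly_lower hc h hD
  · intro Ω _ P _ E hM
    have h1 : ∀ᵐ ω ∂P, ∀ i : ℕ, ∀ᶠ d : ℕ in atTop, Q167.PR.Below {n | ω ∈ E n} d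
        ((2 * Lambda (α / 2) + 1 / ((i : ℝ) + 1)) * (d * Real.log d ^ 2)) := by
      rw [ae_all_iff]
      intro i
      have hi : (0:ℝ) < 1 / ((i : ℝ) + 1) := by positivity
      refine Q167.PR.log_all P hM.meas hM.indep hα ?_ h
      have h2 : Lambda (α / 2) = Q167.LI.Lam (α / 2) := rfl
      rw [h2]
      linarith
    filter_upwards [h1] with ω hω
    intro ε hε
    obtain ⟨i, hi⟩ := exists_nat_one_div_lt hε
    filter_upwards [hω i] with d hd
    apply Q167.PR.Below.mono (A := {n | ω ∈ E n}) hd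
    apply mul_le_mul_of_nonneg_right _ (by positivity)
    linarith
  · intro D hD Ω _ P _ E hM
    have h1 : ∀ᵐ ω ∂P, ∀ i : ℕ, ∀ᶠ d : ℕ in atTop, d ∈ D → Q167.PR.Below {n | ω ∈ E n} d
        ((Lambda α + 1 / ((i : ℝ) + 1)) * (d * Real.log d ^ 2)) := by
      rw [ae_all_iff]
      intro i
      have hi : (0:ℝ) < 1 / ((i : ℝ) + 1) := by positivity
      refine Q167.PR.log_sparse P hM.meas hM.indep hα ?_ h hD
      have h2 : Lambda α = Q167.LI.Lam α := rfl
      rw [h2]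
      linarith
    filter_upwards [h1] with ω hω
    intro ε hε
    obtain ⟨i, hi⟩ := exists_nat_one_div_lt hε
    filter_upwards [hω i] with d hd hdD
    apply Q167.PR.Below.mono (A := {n | ω ∈ E n}) (hd hdD)
    apply mul_le_mul_of_nonneg_right _ (by positivity)
    linarith
  · intro D hD
    apply some_of
    exact Q167.PR.log_lower hα h hD

end Pool.Agent.Results.MP_458f0b_nt.OrdersOfIndependence
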