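import Pool.Agent.Q117.AP.All

/-!
# MP_458f0b_nt: residue classes with prescribed first terms at the scale of Rankin and Pomerance
-/

set_option autoImplicit false

namespace Pool.Agent.Results.MP_458f0b_nt.PrescribedSurroundings

open Finset
open Pool.Agent.Q117.LF (Ro)

/-- the function of Rankin and Erdős: `log X · log log X · log log log log X / (log log log X) ^ 2` -/
noncomputable def R (X : ℝ) : ℝ :=
  Real.log X * Real.log (Real.log X) * Real.log (Real.log (Real.log (Real.log X))) / Real.log (Real.log (Real.log X)) ^ 2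

/-- for every prime `p` not dividing `d` there is a translate of `E` without multiples of `p` -/
def Admissible (d : ℕ) (E : Finset ℤ) : Prop := ∀ p : ℕ, p.Prime → ¬ p ∣ d → ∃ r : ℤ, ∀ e ∈ E, ¬ (p : ℤ) ∣ r + e

open Classical in
/-- the `1 ≤ b ≤ d` prime to `d` with `b + d e₀` a product of at most two primes, all `≥ x`, all the `b + d e`, `e ∈ E`, without prime factors `≤ z`, and all the other `b + d s`, `|s| ≤ D`, with a prime factor `≤ y` -/
noncomputable def Classes (d : ℕ) (E : Finset ℤ) (e₀ : ℤ) (x z D y : ℝ) : Finset ℕ :=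
  (Icc 1 d).filter (fun b : ℕ => b.Coprime d ∧ ((b : ℤ) + d * e₀).natAbs.primeFactorsList.length ≤ 2 ∧ (∀ p : ℕ, p.Prime → (p : ℤ) ∣ (b : ℤ) + d * e₀ → x ≤ p) ∧
    (∀ e ∈ E, Ro z ((b : ℤ) + d * e)) ∧ ∀ s : ℤ, |(s : ℝ)| ≤ D → s ∉ E → ¬ Ro y ((b : ℤ) + d * s))

theorem result : ∀ k : ℕ, 1 ≤ k → ∃ t : ℕ, 1 ≤ t ∧ ∀ ε : ℝ, 0 < ε → ∃ c : ℝ, 0 < c ∧ ∃ d0 : ℕ, ∀ d : ℕ, d0 ≤ d →
    (d.primeFactors.card : ℝ) ≤ Real.exp (Real.log (Real.log d) / Real.log (Real.log (Real.log d))) →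
    ∀ E : Finset ℤ, E.card ≤ k → (∀ e ∈ E, |(e : ℝ)| ≤ c * ((Nat.totient d : ℝ) / d * R d)) → Admissible d E → ∀ e₀ ∈ E,
      (d : ℝ) ^ (1 - ε) ≤ ((Classes d E e₀ ((d : ℝ) ^ (1 / 6 : ℝ)) ((d : ℝ) ^ (1 / (t : ℝ))) (c * ((Nat.totient d : ℝ) / d * R d)) (Real.log d)).card : ℝ) :=
  Pool.Agent.Q117.AP.clsC

end Pool.Agent.Results.MP_458f0b_nt.PrescribedSurroundings
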