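import Pool.Agent.Q145.RA.MultLaw

set_option autoImplicit false
set_option maxHeartbeats 4000000

/-!
# Wagstaff's law for random multipliers

Wagstaff's conjecture says that the least `t` such that each reduced class `a` modulo `d` contains
a prime among `a, a + d, ..., a + t d` is asymptotic to `(φ(d)/d) log² d`.  We prove the
corresponding statement, with the exact constant and together with the number of the exceptional
classes, for almost all moduli `d` and almost all sequences of multipliers `s_1, s_2, ...` from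
`[1, Y]` in place of `1, 2, 3, ...`.
-/

namespace Pool.Agent.Results.MP_458f0b_nt.RandomMultipliers

open Finset

open scoped Classical

/-- The reduced classes modulo `d`, represented in `[1, d]`. -/
noncomputable def Classes (d : ℕ) : Finset ℕ := (Icc 1 d).filter (fun a => a.Coprime d)

/-- The reduced classes `a` modulo `d` such that none of `a + s_1 d, ..., a + s_k d` is a prime
(`s` is a sequence of length `K`, the terms are `s_{i+1} = s i`, `i : Fin K`). -/
noncomputable def Missed (d k : ℕ) {K : ℕ} (s : Fin K → ℕ) : Finset ℕ :=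
  (Classes d).filter (fun a => ∀ i : Fin K, (i : ℕ) < k → ¬ (a + s i * d).Prime)

/-- The critical number of multipliers: `(φ(d)/d) log φ(d) log(dY)`. -/
noncomputable def crit (d Y : ℕ) : ℝ :=
  (d.totient : ℝ) / d * (Real.log d.totient * Real.log (d * Y : ℝ))

/-- For all `k ≤ K`, with `κ = k / crit`: `φ(d)^(1 - κ - ε) ≤ #Missed ≤ φ(d)^(1 - κ + ε)` if
`κ ≤ 1 - ε`, and `Missed` is empty if `κ ≥ 1 + ε`. -/
def Law (ε : ℝ) (d Y K : ℕ) (s : Fin K → ℕ) : Prop := ∀ k ≤ K,
  ((k : ℝ) / crit d Y ≤ 1 - ε →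
    (d.totient : ℝ) ^ (1 - (k : ℝ) / crit d Y - ε) ≤ (Missed d k s).card ∧
    ((Missed d k s).card : ℝ) ≤ (d.totient : ℝ) ^ (1 - (k : ℝ) / crit d Y + ε)) ∧
  (1 + ε ≤ (k : ℝ) / crit d Y → Missed d k s = ∅)

/-- The least `t` such that `a + s_t d` is a prime (`K + 1` if there is none). -/
noncomputable def wait (d : ℕ) {K : ℕ} (s : Fin K → ℕ) (a : ℕ) : ℕ :=
  sInf {t : ℕ | K < t ∨ ∃ i : Fin K, (i : ℕ) + 1 = t ∧ (a + s i * d).Prime}

/-- The largest waiting time over the reduced classes modulo `d`. -/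
noncomputable def maxWait (d : ℕ) {K : ℕ} (s : Fin K → ℕ) : ℕ := (Classes d).sup (wait d s)

/-- All sequences of length `K` of integers from `[1, Y]`. -/
def Seqs (Y K : ℕ) : Finset (Fin K → ℕ) := Fintype.piFinset (fun _ : Fin K => Icc 1 Y)

theorem law_mono (ε' ε : ℝ) (h : ε' ≤ ε) (d Y K : ℕ) (hX : 1 ≤ d.totient) (s : Fin K → ℕ)
    (hs : Law ε' d Y K s) : Law ε d Y K s := by
  intro k hk
  have hX1 : (1 : ℝ) ≤ d.totient := by exact_mod_cast hX
  obtain ⟨h1, h2⟩ := hs k hk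
  refine ⟨fun h3 => ?_, fun h3 => h2 (by linarith)⟩
  obtain ⟨h4, h5⟩ := h1 (by linarith)
  exact ⟨le_trans (Real.rpow_le_rpow_of_exponent_le hX1 (by linarith)) h4,
    h5.trans (Real.rpow_le_rpow_of_exponent_le hX1 (by linarith))⟩

theorem filter_inst {γ : Type} (s : Finset γ) (p : γ → Prop) (i j : DecidablePred p) :
    @Finset.filter _ p i s = @Finset.filter _ p j s := by
  have h : i = j := Subsingleton.elim _ _
  subst h
  rfl

theorem kap_eq (d Y k : ℕ) (hd : 1 ≤ d) (hφ : 2 ≤ d.totient) (hY : 2 ≤ Y) :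
    Pool.Agent.Q145.RA.kap (Pool.Agent.Q145.RA.dens d Y) d.totient k = (k : ℝ) / crit d Y := by
  unfold Pool.Agent.Q145.RA.kap Pool.Agent.Q145.RA.dens crit
  have hd0 : (1 : ℝ) ≤ d := by exact_mod_cast hd
  have hφ0 : (2 : ℝ) ≤ d.totient := by exact_mod_cast hφ
  have hY0 : (2 : ℝ) ≤ Y := by exact_mod_cast hY
  have h1 : 0 < Real.log (d.totient : ℝ) := Real.log_pos (by linarith)
  have h2 : 0 < Real.log (d * Y : ℝ) := Real.log_pos (by nlinarith)
  field_simp

/-- the moduli and the law -/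
theorem law_all (ε : ℝ) (hε : 0 < ε) (hε1 : ε ≤ 1) (N : ℕ) : ∃ D₀ : ℕ, ∀ D Y : ℕ, D₀ ≤ D →
    (D : ℝ) ^ (1 + ε) ≤ Y →
    ∃ B ⊆ Icc 1 D, (B.card : ℝ) ≤ ε * D ∧ ∀ d ∈ Icc 1 D, d ∉ B → 7 ≤ d ∧ N ≤ d.totient ∧
    Pool.Agent.Q145.RA.dens d Y ≤ 1 ∧ ∀ K : ℕ,
    (((Seqs Y K).filter (fun s => ¬ Law ε d Y K s)).card : ℝ) ≤ ε * (Y : ℝ) ^ K := by
  obtain ⟨D₀, h⟩ := Pool.Agent.Q145.RA.mult_law ε hε hε1 N
  refine ⟨max D₀ 2, fun D Y hD hDY => ?_⟩
  obtain ⟨B, h1, h2, h3⟩ := h D Y ((le_max_left _ _).trans hD) hDY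
  refine ⟨B, h1, h2, fun d hd hdB => ?_⟩
  obtain ⟨h4, h5, h6, h7⟩ := h3 d hd hdB
  refine ⟨h4, h5, h6, fun K => ?_⟩
  have hD2 : 2 ≤ D := (le_max_right _ _).trans hD
  have hDr : (2 : ℝ) ≤ D := by exact_mod_cast hD2
  have hY2 : 2 ≤ Y := by
    have : (2 : ℝ) ≤ Y := by
      refine hDr.trans (le_trans ?_ hDY)
      calc (D : ℝ) = (D : ℝ) ^ (1 : ℝ) := (Real.rpow_one _).symm
        _ ≤ (D : ℝ) ^ (1 + ε) := Real.rpow_le_rpow_of_exponent_le (by linarith) (by linarith)
    exact_mod_cast this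
  have hφ2 : 2 ≤ d.totient := by
    have h7 := Nat.totient_even (n := d) (by omega)
    have h8 := Nat.totient_pos.2 (show 0 < d by omega)
    rcases h7 with ⟨m, hm⟩
    omega
  have h8 : ((Seqs Y K).filter (fun s => ¬ Law ε d Y K s)) ⊆
      ((Pool.Agent.Q145.RA.seqs (Icc 1 Y) K).filter
        (fun s => ¬ Pool.Agent.Q145.RA.All ε (Pool.Agent.Q145.RA.dens d Y) (fun a s => (a + s * d).Prime)
          (Pool.Agent.Q145.RA.Cl d) K s)) := by
    intro s hs
    obtain ⟨h9, h10⟩ := mem_filter.1 hs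
    refine mem_filter.2 ⟨h9, fun h11 => h10 ?_⟩
    intro k hk
    obtain ⟨h12, h13⟩ := h11 k hk
    rw [Pool.Agent.Q145.RA.card_Cl d (by omega), kap_eq d Y k (by omega) hφ2 hY2] at h12 h13
    have h14 : Pool.Agent.Q145.RA.missed (fun a s => (a + s * d).Prime) (Pool.Agent.Q145.RA.Cl d) k s = Missed d k s := by
      unfold Pool.Agent.Q145.RA.missed Missed
      exact filter_inst _ _ _ _
    rw [h14] at h12 h13
    exact ⟨h12, h13⟩
  have h9 : (((Seqs Y K).filter (fun s => ¬ Law ε d Y K s)).card : ℝ) ≤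
      (((Pool.Agent.Q145.RA.seqs (Icc 1 Y) K).filter
        (fun s => ¬ Pool.Agent.Q145.RA.All ε (Pool.Agent.Q145.RA.dens d Y) (fun a s => (a + s * d).Prime)
          (Pool.Agent.Q145.RA.Cl d) K s)).card : ℝ) := by exact_mod_cast card_le_card h8
  exact h9.trans (h7 K)

theorem wait_of_law (ε : ℝ) (hε : 0 < ε) (hε1 : ε ≤ 1) (d Y K : ℕ) (hX : 1 ≤ d.totient)
    (hP : 2 ≤ ε * crit d Y) (hK : (1 + ε) * crit d Y ≤ K)
    (s : Fin K → ℕ) (hs : Law (ε / 2) d Y K s) :
    (1 - ε) * crit d Y ≤ maxWait d s ∧ (maxWait d s : ℝ) ≤ (1 + ε) * crit d Y := by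
  set P : ℝ := crit d Y with hPd
  have hP0 : 0 < P := by
    by_contra h
    push Not at h
    nlinarith
  have hX1 : (1 : ℝ) ≤ d.totient := by exact_mod_cast hX
  constructor
  · set k : ℕ := ⌊(1 - ε / 2) * P⌋₊ with hk
    have h0 : 0 ≤ (1 - ε / 2) * P := mul_nonneg (by linarith) hP0.le
    have h1 : (k : ℝ) ≤ (1 - ε / 2) * P := Nat.floor_le h0
    have h2 : (1 - ε / 2) * P < k + 1 := Nat.lt_floor_add_one _
    have hkK : k ≤ K := by
      have : (k : ℝ) ≤ K := by nlinarith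
      exact_mod_cast this
    have h3 : (k : ℝ) / P ≤ 1 - ε / 2 := by
      rw [div_le_iff₀ hP0]
      exact h1
    have h4 := ((hs k hkK).1 h3).1
    have h5 : (1 : ℝ) ≤ (d.totient : ℝ) ^ (1 - (k : ℝ) / P - ε / 2) := Real.one_le_rpow hX1 (by linarith)
    have h6 : 0 < (Missed d k s).card := by
      have : (1 : ℝ) ≤ (Missed d k s).card := h5.trans h4
      have h7 : 1 ≤ (Missed d k s).card := by exact_mod_cast this
      omega
    obtain ⟨n, hn⟩ := card_pos.1 h6
    obtain ⟨hn1, hn2⟩ := mem_filter.1 hn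
    have h7 : k + 1 ≤ wait d s n := by
      apply le_csInf ⟨K + 1, Or.inl (by omega)⟩
      rintro t (ht | ⟨i, hi, hp⟩)
      · omega
      · by_contra h
        exact hn2 i (by omega) hp
    have h8 : wait d s n ≤ maxWait d s := le_sup hn1
    have h9 : ((k + 1 : ℕ) : ℝ) ≤ maxWait d s := by exact_mod_cast h7.trans h8
    push_cast at h9
    nlinarith
  · set k : ℕ := ⌈(1 + ε / 2) * P⌉₊ with hk
    have h1 : (1 + ε / 2) * P ≤ k := Nat.le_ceil _
    have h2 : (k : ℝ) < (1 + ε / 2) * P + 1 := Nat.ceil_lt_add_one (by positivity)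
    have h2' : (k : ℝ) ≤ (1 + ε) * P := by nlinarith
    have hkK : k ≤ K := by exact_mod_cast h2'.trans hK
    have h3 : 1 + ε / 2 ≤ (k : ℝ) / P := by
      rw [le_div_iff₀ hP0]
      exact h1
    have h4 := (hs k hkK).2 h3
    have h5 : maxWait d s ≤ k := by
      apply Finset.sup_le
      intro n hn
      have h6 : n ∉ Missed d k s := by
        rw [h4]
        exact notMem_empty n
      unfold Missed at h6
      rw [mem_filter, not_and] at h6
      have h7 := h6 hn
      push Not at h7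
      obtain ⟨i, hi, hp⟩ := h7
      refine (Nat.sInf_le (Or.inr ⟨i, rfl, hp⟩)).trans ?_
      omega
    have h6 : (maxWait d s : ℝ) ≤ k := by exact_mod_cast h5
    linarith

/-- **Wagstaff's law for random multipliers.**  Let `ε > 0`, let `D` be large and
`Y ≥ D^(1 + ε)`.  All but at most `ε D` of the moduli `d ≤ D` have the following properties; put
`crit = (φ(d)/d) log φ(d) log(dY)`.

(i) For every `K`, all but at most `ε Y^K` of the sequences `s ∈ {1, ..., Y}^K` are such that for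
every `k ≤ K`, with `κ = k / crit`: if `κ ≤ 1 - ε` then the number of the reduced classes `a`
modulo `d` (`1 ≤ a ≤ d`) such that none of `a + s_1 d, ..., a + s_k d` is a prime lies between
`φ(d)^(1 - κ - ε)` and `φ(d)^(1 - κ + ε)`; if `κ ≥ 1 + ε` there is no such class.

(ii) For every `K ≥ (1 + ε) crit`, for all but at most `ε Y^K` of the sequences
`s ∈ {1, ..., Y}^K` the least `t` such that each reduced class `a` contains a prime among
`a + s_1 d, ..., a + s_t d` lies between `(1 - ε) crit` and `(1 + ε) crit`. -/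
theorem result : ∀ ε : ℝ, 0 < ε → ∃ D₀ : ℕ, ∀ D Y : ℕ, D₀ ≤ D → (D : ℝ) ^ (1 + ε) ≤ Y →
    ∃ B ⊆ Icc 1 D, (B.card : ℝ) ≤ ε * D ∧ ∀ d ∈ Icc 1 D, d ∉ B →
    (∀ K : ℕ, (((Seqs Y K).filter (fun s => ¬ Law ε d Y K s)).card : ℝ) ≤ ε * (Y : ℝ) ^ K) ∧
    (∀ K : ℕ, (1 + ε) * crit d Y ≤ K →
      (((Seqs Y K).filter (fun s => ¬ ((1 - ε) * crit d Y ≤ maxWait d s ∧
        (maxWait d s : ℝ) ≤ (1 + ε) * crit d Y))).card : ℝ) ≤ ε * (Y : ℝ) ^ K) := by
  intro ε hε
  set ε₁ : ℝ := min ε 1 with hε₁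
  have hε₁0 : 0 < ε₁ := lt_min hε one_pos
  have hε₁1 : ε₁ ≤ 1 := min_le_right _ _
  have hε₁ε : ε₁ ≤ ε := min_le_left _ _
  have hl : Filter.Tendsto (fun Y : ℕ => Real.log Y) Filter.atTop Filter.atTop :=
    Real.tendsto_log_atTop.comp tendsto_natCast_atTop_atTop
  obtain ⟨N, h3⟩ := Filter.eventually_atTop.1 (hl.eventually_ge_atTop (2 / ε₁))
  obtain ⟨D₂, h2⟩ := law_all (ε₁ / 2) (by positivity) (by linarith) N
  refine ⟨max D₂ 3, fun D Y hD hDY => ?_⟩
  have hD₂ : D₂ ≤ D := (le_max_left _ _).trans hD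
  have hD3 : 3 ≤ D := (le_max_right _ _).trans hD
  have hDr : (3 : ℝ) ≤ D := by exact_mod_cast hD3
  have hDY' : (D : ℝ) ^ (1 + ε₁ / 2) ≤ Y :=
    le_trans (Real.rpow_le_rpow_of_exponent_le (by linarith) (by linarith)) hDY
  obtain ⟨B, hB1, hB2, hB3⟩ := h2 D Y hD₂ hDY'
  refine ⟨B, hB1, hB2.trans (mul_le_mul_of_nonneg_right (by linarith) (by linarith)), fun d hd hdB => ?_⟩
  obtain ⟨k1, k2, k3, k4⟩ := hB3 d hd hdB
  have hφ0 : 0 < d.totient := Nat.totient_pos.2 (by omega)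
  have hYK : ∀ K : ℕ, (0 : ℝ) ≤ (Y : ℝ) ^ K := fun K => by positivity
  refine ⟨fun K => ?_, fun K hK => ?_⟩
  · have h5 : ((Seqs Y K).filter (fun s => ¬ Law ε d Y K s)) ⊆
        ((Seqs Y K).filter (fun s => ¬ Law (ε₁ / 2) d Y K s)) := by
      intro s hs
      obtain ⟨h6, h7⟩ := mem_filter.1 hs
      exact mem_filter.2 ⟨h6, fun h8 => h7 (law_mono (ε₁ / 2) ε (by linarith) d Y K hφ0 s h8)⟩
    have h6 : (((Seqs Y K).filter (fun s => ¬ Law ε d Y K s)).card : ℝ) ≤
        (((Seqs Y K).filter (fun s => ¬ Law (ε₁ / 2) d Y K s)).card : ℝ) := by exact_mod_cast card_le_card h5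
    exact (h6.trans (k4 K)).trans (mul_le_mul_of_nonneg_right (by linarith) (hYK K))
  · -- `crit` is large
    have hP : 2 ≤ ε₁ * crit d Y := by
      have hφr : (0 : ℝ) < d.totient := by exact_mod_cast hφ0
      have hdr : (0 : ℝ) < d := by
        have : 0 < d := by omega
        exact_mod_cast this
      have hYr : (1 : ℝ) ≤ Y := by
        refine le_trans ?_ hDY
        exact Real.one_le_rpow (by linarith) (by linarith)
      have hld : 0 < Real.log (d * Y : ℝ) := by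
        apply Real.log_pos
        have : (7 : ℝ) ≤ d := by exact_mod_cast k1
        nlinarith
      have h5 := h3 d.totient k2
      have h6 : Real.log (d.totient : ℝ) ≤ crit d Y := by
        unfold Pool.Agent.Q145.RA.dens at k3
        rw [div_le_one hld, div_le_iff₀ hφr] at k3
        unfold crit
        have h7 : 1 ≤ (d.totient : ℝ) / d * Real.log (d * Y : ℝ) := by
          rw [div_mul_eq_mul_div, le_div_iff₀ hdr]
          linarith
        have h8 : 0 ≤ Real.log (d.totient : ℝ) := Real.log_natCast_nonneg _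
        nlinarith
      have h7 : 2 / ε₁ ≤ crit d Y := h5.trans h6
      rw [div_le_iff₀ hε₁0] at h7
      linarith
    have hP0 : 0 ≤ crit d Y := by
      by_contra h
      push Not at h
      nlinarith
    have h7 : (Seqs Y K).filter (fun s => ¬ ((1 - ε) * crit d Y ≤ maxWait d s ∧
          (maxWait d s : ℝ) ≤ (1 + ε) * crit d Y)) ⊆
        (Seqs Y K).filter (fun s => ¬ Law (ε₁ / 2) d Y K s) := by
      intro s hs
      obtain ⟨h8, h9⟩ := mem_filter.1 hs
      refine mem_filter.2 ⟨h8, fun h10 => h9 ?_⟩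
      have hK' : (1 + ε₁) * crit d Y ≤ K := by nlinarith
      obtain ⟨h11, h12⟩ := wait_of_law ε₁ hε₁0 hε₁1 d Y K hφ0 hP hK' s h10
      constructor
      · nlinarith
      · nlinarith
    have h8 : (((Seqs Y K).filter (fun s => ¬ ((1 - ε) * crit d Y ≤ maxWait d s ∧
          (maxWait d s : ℝ) ≤ (1 + ε) * crit d Y))).card : ℝ) ≤
        (((Seqs Y K).filter (fun s => ¬ Law (ε₁ / 2) d Y K s)).card : ℝ) := by exact_mod_cast card_le_card h7
    exact (h8.trans (k4 K)).trans (mul_le_mul_of_nonneg_right (by linarith) (hYK K))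

end Pool.Agent.Results.MP_458f0b_nt.RandomMultipliers
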