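import Pool.Agent.Q120.GM.APPrimes
import Pool.Agent.Q120.GM.Exists

/-!
# The largest least element of the classes modulo d in the sieved models of the primes

`Q` is the level: the random set contains each `n` coprime to `Q` independently with
probability `min(1, (Q/φ(Q))/log n)`, and no other `n`. For `Q = 1` this is the model of Cramér.
For a class `a` modulo `d` the number `dens Q a d = #{m < Q : (a + d m, Q) = 1}/φ(Q)` is the expected
density of the set in the class, times the logarithm.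
`Late S c Q d`: some class modulo `d` with positive density contains no element of `S` which is
at most `c d (log d)^2/dens Q a d`.

Almost surely: the ratio (largest least element of a class) / (d (log d)^2/dens) has lower limit
`1` and upper limit `2`; it tends to `1` outside a set of moduli of density zero, and for every
`1 < c < 2` the number of moduli up to `x` with ratio `> c` is `x^(2-c+o(1))`; the prime moduli alone
give the lower bound.
-/

set_option autoImplicit false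

namespace Pool.Agent.Results.MP_458f0b_nt.RatioDoesNotConverge

open MeasureTheory Filter Pool.Agent.Q120.GM

/-- Some class modulo `d` has no element of `S` up to `c d (log d)^2 / dens Q a d`. -/
def Late (S : Set ℕ) (c : ℝ) (Q d : ℕ) : Prop :=
  ∃ a, a < d ∧ 0 < dens Q a d ∧
    ∀ n ∈ S, n % d = a → c * d * Real.log d ^ 2 / dens Q a d < n

/-- The law of the largest least element of the classes. -/
structure Law (S : Set ℕ) (Q : ℕ) : Prop where
  upper : ∀ c : ℝ, 2 < c → ∀ᶠ d : ℕ in atTop, ¬ Late S c Q d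
  lower : ∀ c : ℝ, c < 1 → ∀ᶠ d : ℕ in atTop, Late S c Q d
  many : ∀ c : ℝ, 1 < c → c < 2 → ∀ δ : ℝ, 0 < δ → ∀ᶠ x : ℕ in atTop,
    (x : ℝ) ^ (2 - c - δ) ≤ (Set.ncard {d : ℕ | d ≤ x ∧ d.Prime ∧ Late S c Q d} : ℝ)
  few : ∀ c : ℝ, 1 < c → c < 2 → ∀ δ : ℝ, 0 < δ → ∀ᶠ x : ℕ in atTop,
    (Set.ncard {d : ℕ | d ≤ x ∧ Late S c Q d} : ℝ) ≤ (x : ℝ) ^ (2 - c + δ)

theorem late_iff {S : Set ℕ} {c : ℝ} {Q d : ℕ} : Late S c Q d ↔ Bad S c Q d := by
  constructor
  · rintro ⟨a, h1, h2, h3⟩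
    refine ⟨a, h1, h2, fun m hm hS => ?_⟩
    have := h3 _ hS (by rw [Nat.add_mul_mod_self_left, Nat.mod_eq_of_lt h1])
    linarith
  · rintro ⟨a, h1, h2, h3⟩
    refine ⟨a, h1, h2, fun n hS hn => ?_⟩
    by_contra hcon
    push Not at hcon
    have h4 : a + d * (n / d) = n := by rw [← hn]; exact Nat.mod_add_div n d
    refine h3 (n / d) ?_ ?_
    · rw [h4]
      exact hcon
    · rw [h4]
      exact hS

theorem late_mono {S : Set ℕ} {c c' : ℝ} {Q d : ℕ} (h : c ≤ c') (h1 : Late S c' Q d) : Late S c Q d := by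
  obtain ⟨a, h2, h3, h4⟩ := h1
  refine ⟨a, h2, h3, fun n hS hn => lt_of_le_of_lt ?_ (h4 n hS hn)⟩
  have h5 : 0 ≤ (d : ℝ) * Real.log d ^ 2 / dens Q a d := by positivity
  calc c * d * Real.log d ^ 2 / dens Q a d = c * ((d : ℝ) * Real.log d ^ 2 / dens Q a d) := by ring
    _ ≤ c' * ((d : ℝ) * Real.log d ^ 2 / dens Q a d) := mul_le_mul_of_nonneg_right h h5
    _ = _ := by ring

theorem law {Ω : Type*} [MeasurableSpace Ω] {μ : Measure Ω} [IsProbabilityMeasure μ] {A : Ω → Set ℕ} {Q : ℕ}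
    (hA : IsModel μ (level Q) A) (hQ : 1 ≤ Q) : ∀ᵐ ω ∂μ, Law (A ω) Q := by
  classical
  have h1 : ∀ᵐ ω ∂μ, ∀ j : ℕ, ∀ᶠ d : ℕ in atTop, ¬ Bad (A ω) (2 + 1 / ((j : ℝ) + 2)) Q d :=
    ae_all_iff.2 (fun j => all_moduli hA hQ (by positivity))
  have h2 : ∀ᵐ ω ∂μ, ∀ j : ℕ, ∀ᶠ d : ℕ in atTop, Bad (A ω) (1 - 1 / ((j : ℝ) + 2)) Q d :=
    ae_all_iff.2 (fun j => lower_all hA hQ (by positivity) (by
      rw [div_lt_one (by positivity)]
      have : (0 : ℝ) ≤ j := Nat.cast_nonneg j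
      linarith))
  have h3 : ∀ᵐ ω ∂μ, ∀ q : ℚ, ∀ j : ℕ, 1 < (q : ℝ) → (q : ℝ) < 2 → ∀ᶠ x : ℕ in atTop,
      (x : ℝ) ^ (2 - (q : ℝ) - 1 / ((j : ℝ) + 2)) ≤
        num ((Finset.range (x + 1)).filter Nat.Prime) (fun d => {ω | Bad (A ω) q Q d}) ω := by
    rw [ae_all_iff]
    intro q
    rw [ae_all_iff]
    intro j
    by_cases hq : 1 < (q : ℝ) ∧ (q : ℝ) < 2
    · filter_upwards [le_primes hA hQ hq.1 hq.2 (show (0 : ℝ) < 1 / ((j : ℝ) + 2) by positivity)] with ω hω _ _
      exact hω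
    · filter_upwards with ω a b
      exact absurd ⟨a, b⟩ hq
  have h4 : ∀ᵐ ω ∂μ, ∀ q : ℚ, ∀ j : ℕ, 1 < (q : ℝ) → (q : ℝ) < 2 → ∀ᶠ x : ℕ in atTop,
      num (Finset.range (x + 1)) (fun d => {ω | Bad (A ω) q Q d}) ω ≤ (x : ℝ) ^ (2 - (q : ℝ) + 1 / ((j : ℝ) + 2)) := by
    rw [ae_all_iff]
    intro q
    rw [ae_all_iff]
    intro j
    by_cases hq : 1 < (q : ℝ) ∧ (q : ℝ) < 2
    · filter_upwards [moduli_le hA hQ hq.1.le hq.2.le (show (0 : ℝ) < 1 / ((j : ℝ) + 2) by positivity)] with ω hω _ _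
      exact hω
    · filter_upwards with ω a b
      exact absurd ⟨a, b⟩ hq
  have small : ∀ δ : ℝ, 0 < δ → ∃ j : ℕ, 1 / ((j : ℝ) + 2) ≤ δ := by
    intro δ hδ
    obtain ⟨j, hj⟩ := exists_nat_one_div_lt hδ
    refine ⟨j, le_trans (one_div_le_one_div_of_le (by positivity) (by linarith)) hj.le⟩
  filter_upwards [h1, h2, h3, h4] with ω g1 g2 g3 g4
  refine ⟨?_, ?_, ?_, ?_⟩
  · intro c hc
    obtain ⟨j, hj⟩ := small (c - 2) (by linarith)
    filter_upwards [g1 j] with d hd hcon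
    exact hd (late_iff.1 (late_mono (by linarith) hcon))
  · intro c hc
    obtain ⟨j, hj⟩ := small (1 - c) (by linarith)
    filter_upwards [g2 j] with d hd
    exact late_mono (by linarith) (late_iff.2 hd)
  · intro c hc1 hc2 δ hδ
    obtain ⟨q, hq1, hq2⟩ := exists_rat_btwn (show c < min 2 (c + δ / 2) by rw [lt_min_iff]; constructor <;> linarith)
    have hq3 : (q : ℝ) < 2 := lt_of_lt_of_le hq2 (min_le_left _ _)
    have hq4 : (q : ℝ) < c + δ / 2 := lt_of_lt_of_le hq2 (min_le_right _ _)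
    obtain ⟨j, hj⟩ := small (δ / 2) (by linarith)
    filter_upwards [g3 q j (by linarith) hq3, eventually_ge_atTop 1] with x hx hx1
    have hx1' : (1 : ℝ) ≤ x := by exact_mod_cast hx1
    refine (Real.rpow_le_rpow_of_exponent_le hx1' (by linarith)).trans (hx.trans ?_)
    rw [num_card]
    have hfin : Set.Finite {d : ℕ | d ≤ x ∧ d.Prime ∧ Late (A ω) c Q d} :=
      (Set.finite_le_nat x).subset (fun d hd => hd.1)
    rw [← Set.ncard_coe_finset]
    have hsub : ((((Finset.range (x + 1)).filter Nat.Prime).filter (fun d => ω ∈ {ω | Bad (A ω) q Q d}) : Finset ℕ) : Set ℕ) ⊆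
        {d : ℕ | d ≤ x ∧ d.Prime ∧ Late (A ω) c Q d} := by
      intro d hd
      rw [Finset.mem_coe, Finset.mem_filter, Finset.mem_filter, Finset.mem_range] at hd
      exact ⟨by omega, hd.1.2, late_mono hq1.le (late_iff.2 hd.2)⟩
    exact_mod_cast Set.ncard_le_ncard hsub hfin
  · intro c hc1 hc2 δ hδ
    obtain ⟨q, hq1, hq2⟩ := exists_rat_btwn (show max 1 (c - δ / 2) < c by rw [max_lt_iff]; constructor <;> linarith)
    have hq3 : 1 < (q : ℝ) := lt_of_le_of_lt (le_max_left _ _) hq1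
    have hq4 : c - δ / 2 < (q : ℝ) := lt_of_le_of_lt (le_max_right _ _) hq1
    obtain ⟨j, hj⟩ := small (δ / 2) (by linarith)
    filter_upwards [g4 q j hq3 (by linarith), eventually_ge_atTop 1] with x hx hx1
    have hx1' : (1 : ℝ) ≤ x := by exact_mod_cast hx1
    refine le_trans ?_ (hx.trans (Real.rpow_le_rpow_of_exponent_le hx1' (by linarith)))
    rw [num_card, ← Set.ncard_coe_finset]
    have hsub : {d : ℕ | d ≤ x ∧ Late (A ω) c Q d} ⊆
        (((Finset.range (x + 1)).filter (fun d => ω ∈ {ω | Bad (A ω) q Q d}) : Finset ℕ) : Set ℕ) := by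
      intro d hd
      rw [Finset.mem_coe, Finset.mem_filter, Finset.mem_range]
      exact ⟨by have := hd.1; omega, late_iff.1 (late_mono hq2.le hd.2)⟩
    exact_mod_cast Set.ncard_le_ncard hsub (Finset.finite_toSet _)

/-- **Existence of the models, and the law in every model.** -/
theorem result : (∀ Q : ℕ, IsModel (prodMeasure (level Q)) (level Q) (trueSet (ι := ℕ))) ∧
    ∀ (Ω : Type) (_ : MeasurableSpace Ω) (μ : Measure Ω) (_ : IsProbabilityMeasure μ) (A : Ω → Set ℕ) (Q : ℕ),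
      1 ≤ Q → IsModel μ (level Q) A → ∀ᵐ ω ∂μ, Law (A ω) Q :=
  ⟨fun Q => isModel (level Q) (level_nonneg Q) (level_le_one Q), fun _ _ _ _ _ _ hQ hA => law hA hQ⟩

end Pool.Agent.Results.MP_458f0b_nt.RatioDoesNotConverge
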